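import Pool.Agent.helper34.MO.SpecD

set_option autoImplicit false

open Complex Finset

namespace Pool.Agent.MO

theorem PHG (hLKU : LKU_stmt) (hGE1 : GE1_stmt) : PHG_stmt := by
  intro τ t ht
  have h1 : (0 : ℝ) < t := lt_of_lt_of_le one_pos ht
  rw [hLKU τ t h1]
  exact hGE1 τ t ht

end Pool.Agent.MO
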