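import Pool.Agent.helper34.MO.SpecA

set_option autoImplicit false

open Complex Finset

namespace Pool.Agent.MO

theorem TCH_arg (z : ℂ) (hz : 0 < z.re) : arg z = Real.arctan (z.im / z.re) := by
  rw [← Complex.tan_arg]
  have h := (Complex.abs_arg_lt_pi_div_two_iff.mpr (Or.inl hz))
  rw [abs_lt] at h
  exact (Real.arctan_tan h.1 h.2).symm

theorem TCH_s (s : ℝ) (h0 : 0 < s) (h1 : s ≤ 1) :
    Real.pi / 2 - 2 * Real.arctan s = Real.arctan ((1 - s ^ 2) / (2 * s)) := by
  rcases h1.lt_or_eq with h | h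
  · rw [Real.two_mul_arctan (by linarith) h]
    have h2 : 0 < 1 - s ^ 2 := by nlinarith
    rw [← Real.arctan_inv_of_pos (by positivity), inv_div]
  · rw [h, Real.arctan_one]
    norm_num
    ring

theorem TCH_an (a b x y : ℝ) (ha : 0 ≤ a) (hx : 0 < x) (hy : 0 < y) :
    Real.arctan (b / (x + a)) - chi x y ≤ Real.arctan (b / (y + a)) := by
  have hxa : 0 < x + a := by linarith
  have hya : 0 < y + a := by linarith
  have hm : 0 < min x y := lt_min hx hy
  have hM : 0 < max x y := lt_max_of_lt_left hx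
  have hmM : min x y ≤ max x y := min_le_max
  have hprod : min x y * max x y = x * y := min_mul_max x y
  have hdiff : max x y - min x y = |y - x| := by rw [max_sub_min_eq_abs, abs_sub_comm]
  set m := min x y with hmdef
  set M := max x y with hMdef
  have hs0 : 0 < Real.sqrt (m / M) := Real.sqrt_pos.mpr (by positivity)
  have hs1 : Real.sqrt (m / M) ≤ 1 := by
    rw [Real.sqrt_le_left zero_le_one, one_pow]
    exact (div_le_one hM).mpr hmM
  have hsq : Real.sqrt (m / M) ^ 2 = m / M := Real.sq_sqrt (by positivity)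
  have hg0 : 0 < Real.sqrt (m / M) * M := by positivity
  have hg2 : (Real.sqrt (m / M) * M) ^ 2 = x * y := by
    rw [mul_pow, hsq, ← hprod]
    field_simp
  set g := Real.sqrt (m / M) * M with hgdef
  have hchi : chi x y = Real.arctan ((M - m) / (2 * g)) := by
    rw [chi, ← hmdef, ← hMdef, TCH_s _ hs0 hs1, hsq]
    have h3 : (1 - m / M) / (2 * Real.sqrt (m / M)) = (M - m) / (2 * g) := by
      rw [hgdef]
      field_simp
    rw [h3]
  have huv : b / (x + a) * -(b / (y + a)) < 1 := by
    have h4 : 0 ≤ b / (x + a) * (b / (y + a)) := by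
      rw [div_mul_div_comm]
      exact div_nonneg (mul_self_nonneg b) (by positivity)
    rw [mul_neg]
    linarith
  have hadd := Real.arctan_add huv
  rw [Real.arctan_neg] at hadd
  have hden : 0 < (x + a) * (y + a) + b ^ 2 := by positivity
  have hval : (b / (x + a) + -(b / (y + a))) / (1 - b / (x + a) * -(b / (y + a))) =
      b * (y - x) / ((x + a) * (y + a) + b ^ 2) := by
    have h5 : 1 - b / (x + a) * -(b / (y + a)) = ((x + a) * (y + a) + b ^ 2) / ((x + a) * (y + a)) := by
      field_simp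
      ring
    have h6 : b / (x + a) + -(b / (y + a)) = b * (y - x) / ((x + a) * (y + a)) := by
      field_simp
      ring
    rw [h5, h6, div_div_div_cancel_right₀ (by positivity)]
  rw [hval] at hadd
  have hkey : b * (y - x) / ((x + a) * (y + a) + b ^ 2) ≤ (M - m) / (2 * g) := by
    rw [div_le_div_iff₀ hden (by positivity), hdiff]
    have h7 : b * (y - x) ≤ |b| * |y - x| := by
      rw [← abs_mul]; exact le_abs_self _
    have h8 : |b| * (2 * g) ≤ (x + a) * (y + a) + b ^ 2 := by
      have h9 : 0 ≤ (g - |b|) ^ 2 := sq_nonneg _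
      have h10 : |b| ^ 2 = b ^ 2 := sq_abs b
      have h11 : x * y ≤ (x + a) * (y + a) := by nlinarith
      nlinarith
    calc b * (y - x) * (2 * g) ≤ |b| * |y - x| * (2 * g) := by
          exact mul_le_mul_of_nonneg_right h7 (by positivity)
      _ = |y - x| * (|b| * (2 * g)) := by ring
      _ ≤ |y - x| * ((x + a) * (y + a) + b ^ 2) := mul_le_mul_of_nonneg_left h8 (abs_nonneg _)
  have hmono := Real.arctan_mono hkey
  rw [hchi]
  linarith

/-- the index set of the block decomposition -/
noncomputable def TCH_e (S : Finset ℕ) (k : ℕ) (hk : k ∉ S) : S ⊕ Unit ≃ (insert k S : Finset ℕ) :=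
  (Equiv.optionEquivSumPUnit S).symm.trans (Finset.subtypeInsertEquivOption hk).symm

theorem TCH_e_inl (S : Finset ℕ) (k : ℕ) (hk : k ∉ S) (i : S) : (TCH_e S k hk (Sum.inl i)).1 = i.1 := rfl

theorem TCH_e_inr (S : Finset ℕ) (k : ℕ) (hk : k ∉ S) (i : Unit) : (TCH_e S k hk (Sum.inr i)).1 = k := rfl

theorem TCH_det (F : ℕ → ℕ → ℂ) (S : Finset ℕ) (k : ℕ) (hk : k ∉ S) (h0 : detS F S ≠ 0) :
    ∃ ζ : ℂ, ∀ G : ℕ → ℕ → ℂ, (∀ i ∈ insert k S, ∀ j ∈ insert k S, ¬ (i = k ∧ j = k) → G i j = F i j) →
      detS G (insert k S) = detS F S * (G k k + ζ) := by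
  have hu : IsUnit (mS F S).det := isUnit_iff_ne_zero.mpr h0
  let hinv : Invertible (mS F S) := Matrix.invertibleOfIsUnitDet _ hu
  let B : Matrix S Unit ℂ := Matrix.of fun i _ => F i.1 k
  let C : Matrix Unit S ℂ := Matrix.of fun _ j => F k j.1
  refine ⟨-((C * ⅟(mS F S) * B) () ()), fun G hG => ?_⟩
  let D : Matrix Unit Unit ℂ := Matrix.of fun _ _ => G k k
  have h1 : (mS G (insert k S)).submatrix (TCH_e S k hk) (TCH_e S k hk) = Matrix.fromBlocks (mS F S) B C D := by
    ext i j
    rcases i with i | i <;> rcases j with j | j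
    · rw [Matrix.submatrix_apply, Matrix.fromBlocks_apply₁₁, mS, Matrix.of_apply, TCH_e_inl, TCH_e_inl, mS, Matrix.of_apply]
      exact hG _ (mem_insert_of_mem i.2) _ (mem_insert_of_mem j.2) (fun h => hk (h.1 ▸ i.2))
    · rw [Matrix.submatrix_apply, Matrix.fromBlocks_apply₁₂, mS, Matrix.of_apply, TCH_e_inl, TCH_e_inr]
      exact hG _ (mem_insert_of_mem i.2) _ (mem_insert_self _ _) (fun h => hk (h.1 ▸ i.2))
    · rw [Matrix.submatrix_apply, Matrix.fromBlocks_apply₂₁, mS, Matrix.of_apply, TCH_e_inl, TCH_e_inr]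
      exact hG _ (mem_insert_self _ _) _ (mem_insert_of_mem j.2) (fun h => hk (h.2 ▸ j.2))
    · rw [Matrix.submatrix_apply, Matrix.fromBlocks_apply₂₂, mS, Matrix.of_apply, TCH_e_inr]
      rfl
  have h2 : detS G (insert k S) = (Matrix.fromBlocks (mS F S) B C D).det := by
    rw [← h1, Matrix.det_submatrix_equiv_self]; rfl
  rw [h2, Matrix.det_fromBlocks₁₁, Matrix.det_unique (D - C * ⅟(mS F S) * B), Matrix.sub_apply, sub_eq_add_neg]
  rfl

theorem TCH_one (hPHE : PHE_stmt) (hPHP : PHP_stmt) (hACM : ACM_stmt) (w : ℕ → ℝ) (A : ℕ → ℕ → ℝ) (S : Finset ℕ)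
    (k : ℕ) (hk : k ∉ S) (hw : ∀ x, 0 < w x) (hA : ∀ x y, A x y = A y x) (y : ℝ) (hy : 0 < y) :
    phS (MT w A) (insert k S) - chi (w k) y ≤ phS (MT (Function.update w k y) A) (insert k S) := by
  obtain ⟨h0, -, -⟩ := hPHP (MT w A) S k hk (hACM w A (insert k S) hw hA)
  obtain ⟨ζ, hζ⟩ := TCH_det (MT w A) S k hk h0
  have hval : ∀ x : ℝ, (MT (Function.update w k x) A) k k = (x : ℂ) - I * (A k k : ℂ) := by
    intro x; simp [MT]
  have hoff : ∀ (x : ℝ) (i j : ℕ), ¬ (i = k ∧ j = k) → MT (Function.update w k x) A i j = MT w A i j := by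
    intro x i j h
    simp only [MT]
    by_cases hij : i = j
    · have hik : i ≠ k := fun h' => h ⟨h', hij ▸ h'⟩
      rw [if_pos hij, if_pos hij, Function.update_of_ne hik]
    · rw [if_neg hij, if_neg hij]
  have hmain : ∀ x : ℝ, 0 < x → 0 < ((x : ℂ) + (ζ - I * (A k k : ℂ))).re ∧
      phS (MT (Function.update w k x) A) (insert k S) = phS (MT w A) S + arg ((x : ℂ) + (ζ - I * (A k k : ℂ))) := by
    intro x hx
    have hw' : ∀ z, 0 < Function.update w k x z := by
      intro z
      by_cases hz : z = k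
      · rw [hz, Function.update_self]; exact hx
      · rw [Function.update_of_ne hz]; exact hw z
    obtain ⟨h1, h2, h3⟩ := hPHP (MT (Function.update w k x) A) S k hk (hACM _ A (insert k S) hw' hA)
    obtain ⟨h4, h5, -⟩ := hPHE.2.2.1 (MT (Function.update w k x) A) (MT w A) S
      (fun i hi j hj => hoff x i j (fun h => hk (h.1 ▸ hi)))
    have h6 := hζ (MT (Function.update w k x) A) (fun i _ j _ h => hoff x i j h)
    rw [h5, h6, mul_div_cancel_left₀ _ h0, hval] at h2 h3
    have h7 : (x : ℂ) - I * (A k k : ℂ) + ζ = (x : ℂ) + (ζ - I * (A k k : ℂ)) := by ring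
    rw [h7] at h2 h3
    exact ⟨h2, by rw [h3, h4]⟩
  set η : ℂ := ζ - I * (A k k : ℂ) with hη
  have hre : 0 ≤ η.re := by
    by_contra hneg
    push Not at hneg
    have := (hmain (-η.re / 2) (by linarith)).1
    rw [add_re, ofReal_re] at this
    linarith
  have hF : phS (MT w A) (insert k S) = phS (MT w A) S + arg ((w k : ℂ) + η) := by
    have := (hmain (w k) (hw k)).2
    rwa [Function.update_eq_self] at this
  rw [hF, (hmain y hy).2, TCH_arg _ (hmain (w k) (hw k)).1, TCH_arg _ (hmain y hy).1]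
  have han := TCH_an η.re η.im (w k) y hre (hw k) hy
  simp only [add_re, ofReal_re, add_im, ofReal_im, zero_add]
  linarith

theorem TCH (hPHE : PHE_stmt) (hPHP : PHP_stmt) (hACM : ACM_stmt) (hCHI : CHI_stmt) : TCH_stmt := by
  intro w w' A S hw hw' hA
  have key : ∀ T : Finset ℕ, T ⊆ S → phS (MT w A) S - ∑ k ∈ T, chi (w k) (w' k) ≤
      phS (MT (fun x => if x ∈ T then w' x else w x) A) S := by
    intro T
    induction T using Finset.induction_on with
    | empty =>
      intro _
      simp
    | insert k T hkT ih =>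
      intro hT
      have h1 := ih (fun x hx => hT (mem_insert_of_mem hx))
      have hkS : k ∈ S := hT (mem_insert_self _ _)
      have h2 := TCH_one hPHE hPHP hACM (fun x => if x ∈ T then w' x else w x) A (S.erase k) k
        (notMem_erase k S) (fun x => by split_ifs; exacts [hw' x, hw x]) hA (w' k) (hw' k)
      rw [insert_erase hkS] at h2
      have h3 : Function.update (fun x => if x ∈ T then w' x else w x) k (w' k) =
          fun x => if x ∈ insert k T then w' x else w x := by
        funext x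
        by_cases hx : x = k
        · rw [hx, Function.update_self, if_pos (mem_insert_self _ _)]
        · rw [Function.update_of_ne hx]
          by_cases hxT : x ∈ T
          · rw [if_pos hxT, if_pos (mem_insert_of_mem hxT)]
          · rw [if_neg hxT, if_neg (fun h => (mem_insert.mp h).elim hx hxT)]
      rw [h3] at h2
      simp only [if_neg hkT] at h2
      rw [sum_insert hkT]
      linarith
  have h := key S (Subset.refl S)
  obtain ⟨h1, -, -⟩ := hPHE.2.2.1 (MT (fun x => if x ∈ S then w' x else w x) A) (MT w' A) S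
    (fun i hi j hj => by simp only [MT, if_pos hi])
  rwa [h1] at h

end Pool.Agent.MO
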